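import Mathlib
import Pool.Agent.Y234.FP.Stm

/-!
# Project FP, job CO: completeness
-/

set_option autoImplicit false

open MvPolynomial Pool.Agent.Results.MP_94ed3e_ag.FatPoint

namespace Pool.Agent.Y994.FP

open Pool.Agent.Y234.FP

universe u

section deg

variable {r : ℕ}

lemma yd_add (u v : Fin (r + 2) →₀ ℕ) : yd (u + v) = yd u + yd v := by
  unfold yd
  simp only [Finsupp.add_apply, Finset.sum_add_distrib]

lemma ax_add (u v : Fin (r + 2) →₀ ℕ) : ax (u + v) = ax u + ax v := by
  unfold ax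
  simp only [Finsupp.add_apply]
  omega

lemma bx_add (u v : Fin (r + 2) →₀ ℕ) : bx (u + v) = bx u + bx v := by
  unfold bx
  rw [yd_add]
  simp only [Finsupp.add_apply]
  omega

lemma one_ne : (1 : Fin (r + 2)) ≠ 0 := by
  intro h
  have := congrArg Fin.val h
  simp at this

lemma ss_ne_zero (i : Fin r) : (i.succ.succ : Fin (r + 2)) ≠ 0 := Fin.succ_ne_zero _

lemma ss_ne_one (i : Fin r) : (i.succ.succ : Fin (r + 2)) ≠ 1 := by
  intro h
  have := congrArg Fin.val h
  simp at this

lemma yd_s0 (j : ℕ) : yd (Finsupp.single (0 : Fin (r + 2)) j) = 0 := by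
  unfold yd
  refine Finset.sum_eq_zero fun i _ => ?_
  rw [Finsupp.single_apply, if_neg (ss_ne_zero i).symm]

lemma yd_s1 (j : ℕ) : yd (Finsupp.single (1 : Fin (r + 2)) j) = 0 := by
  unfold yd
  refine Finset.sum_eq_zero fun i _ => ?_
  rw [Finsupp.single_apply, if_neg (ss_ne_one i).symm]

lemma yd_ss (i : Fin r) (j : ℕ) : yd (Finsupp.single (i.succ.succ : Fin (r + 2)) j) = j := by
  unfold yd
  rw [Finset.sum_eq_single i]
  · rw [Finsupp.single_apply, if_pos rfl]
  · intro k _ hk
    rw [Finsupp.single_apply, if_neg]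
    intro h
    exact hk (Fin.succ_injective _ (Fin.succ_injective _ h)).symm
  · intro h
    exact absurd (Finset.mem_univ _) h

lemma ax_s0 (j : ℕ) : ax (Finsupp.single (0 : Fin (r + 2)) j) = j := by
  unfold ax
  rw [Finsupp.single_apply, Finsupp.single_apply, if_pos rfl, if_neg one_ne.symm, add_zero]

lemma ax_s1 (j : ℕ) : ax (Finsupp.single (1 : Fin (r + 2)) j) = j := by
  unfold ax
  rw [Finsupp.single_apply, Finsupp.single_apply, if_neg one_ne, if_pos rfl, zero_add]

lemma ax_ss (i : Fin r) (j : ℕ) : ax (Finsupp.single (i.succ.succ : Fin (r + 2)) j) = 0 := by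
  unfold ax
  rw [Finsupp.single_apply, Finsupp.single_apply, if_neg (ss_ne_zero i), if_neg (ss_ne_one i),
    add_zero]

lemma bx_s0 (j : ℕ) : bx (Finsupp.single (0 : Fin (r + 2)) j) = 0 := by
  unfold bx
  rw [yd_s0, Finsupp.single_apply, if_neg one_ne.symm]

lemma bx_s1 (j : ℕ) : bx (Finsupp.single (1 : Fin (r + 2)) j) = j := by
  unfold bx
  rw [yd_s1, Finsupp.single_apply, if_pos rfl, add_zero]

lemma bx_ss (i : Fin r) (j : ℕ) : bx (Finsupp.single (i.succ.succ : Fin (r + 2)) j) = j := by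
  unfold bx
  rw [yd_ss, Finsupp.single_apply, if_neg (ss_ne_one i), zero_add]

lemma split0 {u : Fin (r + 2) →₀ ℕ} {j : ℕ} (h : j ≤ u 0) :
    u = (u - Finsupp.single 0 j) + Finsupp.single 0 j := by
  rw [tsub_add_cancel_of_le]
  exact Finsupp.single_le_iff.2 h

end deg

section main

variable {T : Type u} [CommRing T] {r m : ℕ}

/-- the relation -/
noncomputable def DD (β : Fin r → T) (i : Fin r) : MvPolynomial (Fin (r + 2)) T :=
  X 0 * X i.succ.succ + C (β i) * X 1

lemma mul_mono (u v : Fin (r + 2) →₀ ℕ) :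
    monomial (u + v) (1 : T) = monomial u 1 * monomial v 1 := by
  rw [monomial_mul, one_mul]

lemma X_pow_mono (k : Fin (r + 2)) (j : ℕ) : (X k : MvPolynomial (Fin (r + 2)) T) ^ j =
    monomial (Finsupp.single k j) 1 := X_pow_eq_monomial

lemma X_mono (k : Fin (r + 2)) : (X k : MvPolynomial (Fin (r + 2)) T) =
    monomial (Finsupp.single k 1) 1 := rfl

lemma hom_D (hWE : St_WE) (β : Fin r → T) (v : Fin (r + 2) →₀ ℕ) (i : Fin r) :
    monomial v (1 : T) * DD β i ∈ weightedHomogeneousSubmodule T (wt r)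
      (((ax v + 1 : ℕ) : ℤ), ((bx v + 1 : ℕ) : ℤ)) := by
  have e : monomial v (1 : T) * DD β i =
      monomial (v + Finsupp.single 0 1 + Finsupp.single i.succ.succ 1) 1 +
        monomial (v + Finsupp.single 1 1) (β i) := by
    unfold DD
    rw [mul_add, X_mono, X_mono, X_mono, ← mul_assoc, ← mul_mono, ← mul_mono, C_mul_monomial,
      mul_one, monomial_mul, one_mul]
  rw [e]
  refine Submodule.add_mem _ ?_ ?_
  · refine isWeightedHomogeneous_monomial _ _ _ ?_
    rw [hWE, ax_add, ax_add, bx_add, bx_add, ax_s0, ax_ss, bx_s0, bx_ss]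
  · refine isWeightedHomogeneous_monomial _ _ _ ?_
    rw [hWE, ax_add, bx_add, ax_s1, bx_s1]

/-- division by a power of `x` -/
lemma exists_div (hWE : St_WE) {a b j : ℕ} (hab : b ≤ a) {G : MvPolynomial (Fin (r + 2)) T}
    (hG : G ∈ weightedHomogeneousSubmodule T (wt r) (((a + j : ℕ) : ℤ), (b : ℤ))) :
    ∃ F ∈ weightedHomogeneousSubmodule T (wt r) ((a : ℤ), (b : ℤ)), X 0 ^ j * F = G := by
  have hw : ∀ u ∈ G.support, ax u = a + j ∧ bx u = b := by
    intro u hu
    have h1 := hG (mem_support_iff.1 hu)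
    rw [hWE] at h1
    have h2 := congrArg Prod.fst h1
    have h3 := congrArg Prod.snd h1
    simp only at h2 h3
    exact ⟨by exact_mod_cast h2, by exact_mod_cast h3⟩
  have hj : ∀ u ∈ G.support, j ≤ u 0 := by
    intro u hu
    obtain ⟨h1, h2⟩ := hw u hu
    unfold ax at h1
    unfold bx at h2
    omega
  refine ⟨∑ u ∈ G.support, monomial (u - Finsupp.single 0 j) (coeff u G), ?_, ?_⟩
  · refine Submodule.sum_mem _ fun u hu => ?_
    refine isWeightedHomogeneous_monomial _ _ _ ?_
    rw [hWE]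
    have h1 := hw u hu
    have h2 := split0 (hj u hu)
    have h3 := congrArg ax h2
    have h4 := congrArg bx h2
    rw [ax_add, ax_s0] at h3
    rw [bx_add, bx_s0] at h4
    have h5 : ax (u - Finsupp.single 0 j) = a := by omega
    have h6 : bx (u - Finsupp.single 0 j) = b := by omega
    rw [h5, h6]
  · rw [Finset.mul_sum]
    conv_rhs => rw [G.as_sum]
    refine Finset.sum_congr rfl fun u hu => ?_
    have h := split0 (hj u hu)
    rw [X_pow_mono, monomial_mul, one_mul, add_comm (Finsupp.single 0 j) _]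
    exact congrArg (fun w => monomial w (coeff u G)) h.symm

/-- multiplication by a power of `x` is injective in the degrees of rank one -/
lemma cancel (hWE : St_WE) (hHV : St_HV) (hm : 2 ≤ m) {I : Ideal (MvPolynomial (Fin (r + 2)) T)}
    (hI : I ∈ hilb (wt r) (hf r m) T) {a b j : ℕ} (h1 : m ≤ a) (h2 : a + j < 2 * m) (h3 : b ≤ m)
    {F : MvPolynomial (Fin (r + 2)) T}
    (hF : F ∈ weightedHomogeneousSubmodule T (wt r) ((a : ℤ), (b : ℤ)))
    (hx : X 0 ^ j * F ∈ I) : F ∈ I := by
  have hmul : ∀ G ∈ weightedHomogeneousSubmodule T (wt r) ((a : ℤ), (b : ℤ)),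
      X 0 ^ j * G ∈ weightedHomogeneousSubmodule T (wt r) (((a + j : ℕ) : ℤ), (b : ℤ)) := by
    intro G hG
    have h4 : (X 0 ^ j : MvPolynomial (Fin (r + 2)) T) ∈
        weightedHomogeneousSubmodule T (wt r) ((j : ℤ), (0 : ℤ)) := by
      rw [X_pow_mono]
      refine isWeightedHomogeneous_monomial _ _ _ ?_
      rw [hWE, ax_s0, bx_s0]
      simp
    have h5 := IsWeightedHomogeneous.mul h4 hG
    have h6 : ((j : ℤ), (0 : ℤ)) + ((a : ℤ), (b : ℤ)) = (((a + j : ℕ) : ℤ), (b : ℤ)) := by
      push_cast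
      rw [Prod.mk_add_mk, zero_add, add_comm]
    rw [h6] at h5
    exact h5
  let f0 : weightedHomogeneousSubmodule T (wt r) ((a : ℤ), (b : ℤ)) →ₗ[T]
      weightedHomogeneousSubmodule T (wt r) (((a + j : ℕ) : ℤ), (b : ℤ)) :=
    LinearMap.restrict (LinearMap.mulLeft T (X 0 ^ j : MvPolynomial (Fin (r + 2)) T)) hmul
  let f : GradedPiece (wt r) I ((a : ℤ), (b : ℤ)) →ₗ[T]
      GradedPiece (wt r) I (((a + j : ℕ) : ℤ), (b : ℤ)) :=
    Submodule.mapQ _ _ f0 (fun G hG =>
      show X 0 ^ j * (G : MvPolynomial (Fin (r + 2)) T) ∈ I from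
        I.mul_mem_left _ (show (G : MvPolynomial (Fin (r + 2)) T) ∈ I from hG))
  have hsurj : Function.Surjective f := by
    intro q
    obtain ⟨⟨G, hG⟩, rfl⟩ := Submodule.mkQ_surjective _ q
    obtain ⟨F', hF', hFG⟩ := exists_div hWE (h3.trans h1) hG
    refine ⟨Submodule.Quotient.mk ⟨F', hF'⟩, ?_⟩
    show (Submodule.Quotient.mk (f0 ⟨F', hF'⟩) :
      GradedPiece (wt r) I (((a + j : ℕ) : ℤ), (b : ℤ))) = Submodule.Quotient.mk ⟨G, hG⟩
    exact congrArg _ (Subtype.ext hFG)
  have r1 := hI.2 ((a : ℤ), (b : ℤ))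
  have r2 := hI.2 (((a + j : ℕ) : ℤ), (b : ℤ))
  have hv := hHV r m (by omega)
  rw [hv.2.2 a b h1 (by omega) h3] at r1
  rw [hv.2.2 (a + j) b (by omega) h2 h3] at r2
  have hinj := r1.injective_of_surjective r2 f hsurj
  have h7 : f (Submodule.Quotient.mk ⟨F, hF⟩) = 0 := by
    show (Submodule.Quotient.mk (f0 ⟨F, hF⟩) :
      GradedPiece (wt r) I (((a + j : ℕ) : ℤ), (b : ℤ))) = 0
    rw [Submodule.Quotient.mk_eq_zero]
    exact hx
  have h8 : (Submodule.Quotient.mk ⟨F, hF⟩ : GradedPiece (wt r) I ((a : ℤ), (b : ℤ))) = 0 :=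
    hinj (h7.trans (map_zero f).symm)
  rw [Submodule.Quotient.mk_eq_zero] at h8
  exact h8

/-- the vectors with a large exponent of `x` -/
lemma big_mem {I : Ideal (MvPolynomial (Fin (r + 2)) T)} {β : Fin r → T}
    (hβ : ∀ i, X 0 ^ (m - 1) * DD β i ∈ I) {v : Fin (r + 2) →₀ ℕ} (hv : m - 1 ≤ v 0) (i : Fin r) :
    monomial v (1 : T) * DD β i ∈ I := by
  have h := I.mul_mem_left (monomial (v - Finsupp.single 0 (m - 1)) (1 : T)) (hβ i)
  rw [← mul_assoc, X_pow_mono, ← mul_mono, ← split0 hv] at h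
  exact h

lemma gens3 (hWE : St_WE) (hHV : St_HV) (hm : 2 ≤ m) {I : Ideal (MvPolynomial (Fin (r + 2)) T)}
    (hI : I ∈ hilb (wt r) (hf r m) T) {β : Fin r → T}
    (hβ : ∀ i, X 0 ^ (m - 1) * DD β i ∈ I) (v : Fin (r + 2) →₀ ℕ) (i : Fin r)
    (h1 : m ≤ ax v + 1) (h3 : bx v + 1 ≤ m) :
    monomial v (1 : T) * DD β i ∈ I := by
  by_cases hv : m - 1 ≤ v 0
  · exact big_mem hβ hv i
  refine cancel hWE hHV hm hI (j := m - 1 - v 0) h1 ?_ h3 (hom_D hWE β v i) ?_
  · unfold ax
    unfold bx at h3
    omega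
  · rw [← mul_assoc, X_pow_mono, ← mul_mono]
    refine big_mem hβ ?_ i
    rw [Finsupp.add_apply, Finsupp.single_apply, if_pos rfl]
    omega

/-- the generator of the piece of degree `(2 m - 1, m)` -/
lemma red {I : Ideal (MvPolynomial (Fin (r + 2)) T)} {β : Fin r → T} (hm : 2 ≤ m)
    (hβ : ∀ i, X 0 ^ (m - 1) * DD β i ∈ I) : ∀ (n : ℕ) (u : Fin (r + 2) →₀ ℕ), yd u = n →
      ax u = 2 * m - 1 → bx u = m →
      monomial u (1 : T) - C (∏ i : Fin r, (- β i) ^ (u i.succ.succ)) *
        (X 0 ^ (m - 1) * X 1 ^ m) ∈ I := by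
  intro n
  induction n with
  | zero =>
    intro u hn ha hb
    have h0 : ∀ i : Fin r, u i.succ.succ = 0 := by
      intro i
      unfold yd at hn
      exact (Finset.sum_eq_zero_iff.1 hn) i (Finset.mem_univ _)
    have hu : u = Finsupp.single 0 (m - 1) + Finsupp.single 1 m := by
      have h1 : u 1 = m := by
        unfold bx at hb
        omega
      have h2 : u 0 = m - 1 := by
        unfold ax at ha
        omega
      ext k
      rw [Finsupp.add_apply, Finsupp.single_apply, Finsupp.single_apply]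
      refine Fin.cases ?_ (fun k => ?_) k
      · rw [if_pos rfl, if_neg one_ne, add_zero, h2]
      · refine Fin.cases ?_ (fun k => ?_) k
        · have e : (Fin.succ (0 : Fin (r + 1)) : Fin (r + 2)) = 1 := rfl
          rw [e, if_neg one_ne.symm, if_pos rfl, zero_add, h1]
        · rw [h0 k, if_neg (ss_ne_zero k).symm, if_neg (ss_ne_one k).symm, add_zero]
    have h3 : ∏ i : Fin r, (- β i) ^ (u i.succ.succ) = 1 := by
      refine Finset.prod_eq_one fun i _ => ?_
      rw [h0 i, pow_zero]
    rw [h3, C_1, one_mul, X_pow_mono, X_pow_mono, ← mul_mono, ← hu, sub_self]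
    exact I.zero_mem
  | succ n ih =>
    intro u hn ha hb
    obtain ⟨i, hi⟩ : ∃ i : Fin r, u i.succ.succ ≠ 0 := by
      by_contra hcon
      push Not at hcon
      unfold yd at hn
      rw [Finset.sum_eq_zero (fun i _ => hcon i)] at hn
      omega
    have hu0 : m ≤ u 0 := by
      unfold ax at ha
      unfold bx at hb
      omega
    obtain ⟨v, hv⟩ : ∃ v, u = v + Finsupp.single 0 1 + Finsupp.single i.succ.succ 1 := by
      refine ⟨u - (Finsupp.single 0 1 + Finsupp.single i.succ.succ 1), ?_⟩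
      rw [add_assoc, tsub_add_cancel_of_le]
      intro k
      rw [Finsupp.add_apply, Finsupp.single_apply, Finsupp.single_apply]
      by_cases hk : (0 : Fin (r + 2)) = k
      · rw [if_pos hk, if_neg (fun h => ss_ne_zero i (h.trans hk.symm)), ← hk]
        omega
      · rw [if_neg hk]
        by_cases hk' : i.succ.succ = k
        · rw [if_pos hk', ← hk']
          omega
        · rw [if_neg hk']
          omega
    have hv0 : m - 1 ≤ v 0 := by
      have h := congrArg (fun w : Fin (r + 2) →₀ ℕ => w 0) hv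
      simp only [Finsupp.add_apply, Finsupp.single_apply, if_pos, if_neg (ss_ne_zero i)] at h
      omega
    have hmem := big_mem hβ hv0 i
    set u' : Fin (r + 2) →₀ ℕ := v + Finsupp.single 1 1 with hu'
    have e1 : monomial v (1 : T) * DD β i = monomial u 1 + C (β i) * monomial u' 1 := by
      unfold DD
      rw [hv, hu', mul_add, X_mono, X_mono, X_mono, ← mul_assoc, ← mul_mono, ← mul_mono,
        mul_left_comm, ← mul_mono]
    rw [e1] at hmem
    have hyd : yd u' = n := by
      have h1 := hn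
      rw [hv, yd_add, yd_add, yd_s0, yd_ss] at h1
      rw [hu', yd_add, yd_s1]
      omega
    have hax : ax u' = 2 * m - 1 := by
      have h1 := ha
      rw [hv, ax_add, ax_add, ax_s0, ax_ss] at h1
      rw [hu', ax_add, ax_s1]
      omega
    have hbx : bx u' = m := by
      have h1 := hb
      rw [hv, bx_add, bx_add, bx_s0, bx_ss] at h1
      rw [hu', bx_add, bx_s1]
      omega
    have hIH := ih u' hyd hax hbx
    have hprod : ∏ k : Fin r, (- β k) ^ (u k.succ.succ) =
        (- β i) * ∏ k : Fin r, (- β k) ^ (u' k.succ.succ) := by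
      have h1 : ∀ k : Fin r, u k.succ.succ = u' k.succ.succ + if k = i then 1 else 0 := by
        intro k
        have h2 := congrArg (fun w : Fin (r + 2) →₀ ℕ => w k.succ.succ) hv
        simp only [Finsupp.add_apply, Finsupp.single_apply, if_neg (ss_ne_zero k).symm] at h2
        rw [h2, hu', Finsupp.add_apply, Finsupp.single_apply, if_neg (ss_ne_one k).symm]
        by_cases hk : k = i
        · rw [hk, if_pos rfl, if_pos rfl]
        · rw [if_neg hk, if_neg (fun h => hk (Fin.succ_injective _ (Fin.succ_injective _ h)).symm)]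
      have h3 : ∀ k : Fin r, (- β k) ^ (u k.succ.succ) =
          (if k = i then (- β i) else 1) * (- β k) ^ (u' k.succ.succ) := by
        intro k
        rw [h1 k]
        by_cases hk : k = i
        · rw [if_pos hk, if_pos hk, hk, pow_succ, mul_comm]
        · rw [if_neg hk, if_neg hk, add_zero, one_mul]
      rw [Finset.prod_congr rfl (fun k _ => h3 k), Finset.prod_mul_distrib]
      congr 1
      rw [Finset.prod_ite_eq' Finset.univ i (fun _ => - β i), if_pos (Finset.mem_univ _)]
    rw [hprod]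
    have h4 := I.sub_mem hmem (I.mul_mem_left (C (β i)) hIH)
    have h5 : monomial u (1 : T) + C (β i) * monomial u' 1 - C (β i) * (monomial u' (1 : T) -
        C (∏ k : Fin r, (- β k) ^ (u' k.succ.succ)) * (X 0 ^ (m - 1) * X 1 ^ m)) =
        monomial u (1 : T) - C (- β i * ∏ k : Fin r, (- β k) ^ (u' k.succ.succ)) *
          (X 0 ^ (m - 1) * X 1 ^ m) := by
      rw [map_mul, map_neg]
      ring
    rw [h5] at h4
    exact h4

end main

/-- CO: completeness -/
theorem t_CO (hWE : St_WE) (hHV : St_HV) : St_CO.{u} := by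
  intro T _ r m hm I hI β hβ
  have hβ' : ∀ i, X 0 ^ (m - 1) * DD β i ∈ I := hβ
  have hv := hHV r m (by omega)
  have g1 : ∀ u : Fin (r + 2) →₀ ℕ, (2 * m ≤ ax u ∨ m < bx u) → monomial u (1 : T) ∈ I := by
    intro u hu
    refine monomial_mem_of_degree_zero hI u ?_ 1
    rw [hWE]
    exact hv.1 u hu
  have g2 : ∀ u : Fin (r + 2) →₀ ℕ, m ≤ yd u → monomial u (1 : T) ∈ I := by
    intro u hu
    obtain ⟨w, hw1, hw2⟩ : ∃ w : Fin (r + 2) →₀ ℕ, (ax w = 0 ∧ yd w = yd u ∧ w 1 = 0) ∧ w ≤ u := by
      refine ⟨u - (Finsupp.single 0 (u 0) + Finsupp.single 1 (u 1)), ⟨?_, ?_, ?_⟩, tsub_le_self⟩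
      · unfold ax
        simp only [Finsupp.tsub_apply, Finsupp.add_apply, Finsupp.single_apply, if_true,
          if_neg (one_ne (r := r)), if_neg (one_ne (r := r)).symm]
        omega
      · unfold yd
        refine Finset.sum_congr rfl fun i _ => ?_
        simp only [Finsupp.tsub_apply, Finsupp.add_apply, Finsupp.single_apply]
        rw [if_neg (ss_ne_zero i).symm, if_neg (ss_ne_one i).symm]
        omega
      · simp only [Finsupp.tsub_apply, Finsupp.add_apply, Finsupp.single_apply, if_true,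
          if_neg (one_ne (r := r)).symm]
        omega
    have h1 : monomial w (1 : T) ∈ I := by
      refine monomial_mem_of_degree_zero hI w ?_ 1
      have h2 : bx w = yd u := by
        unfold bx
        rw [hw1.2.1, hw1.2.2, zero_add]
      rw [hWE, hw1.1, h2]
      exact hv.2.1 _ hu
    have h3 : monomial u (1 : T) = monomial (u - w) 1 * monomial w 1 := by
      rw [← mul_mono, tsub_add_cancel_of_le hw2]
    rw [h3]
    exact I.mul_mem_left _ h1
  refine ⟨?_, g1, g2, ?_⟩
  · intro α hα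
    -- the exponent vector
    set u0 : Fin (r + 2) →₀ ℕ := Finsupp.equivFunOnFinite.symm
      (Fin.cons (2 * m - 1) (Fin.cons 0 α)) with hu0
    have e0 : u0 0 = 2 * m - 1 := rfl
    have e1 : u0 1 = 0 := rfl
    have e2 : ∀ i : Fin r, u0 i.succ.succ = α i := fun i => rfl
    have hyd : yd u0 = m := by
      unfold yd
      rw [← hα]
      exact Finset.sum_congr rfl fun i _ => e2 i
    have hax : ax u0 = 2 * m - 1 := by
      unfold ax
      rw [e0, e1]
      omega
    have hbx : bx u0 = m := by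
      unfold bx
      rw [e1, hyd, zero_add]
    have hr := red hm hβ' _ u0 rfl hax hbx
    have hm0 := g2 u0 hyd.ge
    set c : T := ∏ i : Fin r, (- β i) ^ (u0 i.succ.succ) with hc
    have hce : C c * (X 0 ^ (m - 1) * X 1 ^ m) ∈ I := by
      have := I.sub_mem hm0 hr
      rwa [sub_sub_cancel] at this
    have hc0 : c = 0 := by
      have r1 := hI.2 (((2 * m - 1 : ℕ) : ℤ), (m : ℤ))
      rw [hv.2.2 (2 * m - 1) m (by omega) (by omega) le_rfl] at r1
      refine LocallyFreeOfRank.faithful (r := 0) r1 c fun q => ?_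
      obtain ⟨⟨F, hF⟩, rfl⟩ := Submodule.mkQ_surjective _ q
      show (Submodule.Quotient.mk (c • (⟨F, hF⟩ : weightedHomogeneousSubmodule T (wt r)
        (((2 * m - 1 : ℕ) : ℤ), (m : ℤ)))) : GradedPiece (wt r) I _) = 0
      rw [Submodule.Quotient.mk_eq_zero]
      show c • F ∈ I
      rw [smul_eq_C_mul, F.as_sum, Finset.mul_sum]
      refine I.sum_mem fun u hu => ?_
      have h1 := hF (mem_support_iff.1 hu)
      rw [hWE] at h1
      have h2 := congrArg Prod.fst h1
      have h3 := congrArg Prod.snd h1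
      simp only at h2 h3
      have h2' : ax u = 2 * m - 1 := by exact_mod_cast h2
      have h3' : bx u = m := by exact_mod_cast h3
      have h4 := red hm hβ' _ u rfl h2' h3'
      have h5 : C c * monomial u (coeff u F) = C (coeff u F) * (C c *
          (monomial u (1 : T) - C (∏ i : Fin r, (- β i) ^ (u i.succ.succ)) *
            (X 0 ^ (m - 1) * X 1 ^ m))) +
          C (coeff u F) * (C (∏ i : Fin r, (- β i) ^ (u i.succ.succ)) *
            (C c * (X 0 ^ (m - 1) * X 1 ^ m))) := by
        have h6 : monomial u (coeff u F) = C (coeff u F) * monomial u (1 : T) := by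
          rw [C_mul_monomial, mul_one]
        rw [h6]
        ring
      rw [h5]
      exact I.add_mem (I.mul_mem_left _ (I.mul_mem_left _ h4))
        (I.mul_mem_left _ (I.mul_mem_left _ hce))
    have h7 : c = (-1) ^ m * ∏ i, β i ^ α i := by
      rw [hc, ← hα, ← Finset.prod_pow_eq_pow_sum, ← Finset.prod_mul_distrib]
      refine Finset.prod_congr rfl fun i _ => ?_
      rw [e2, neg_pow]
    have h8 : ∏ i, β i ^ α i = (-1) ^ m * c := by
      rw [h7, ← mul_assoc, ← mul_pow]
      simp
    rw [h8, hc0, mul_zero]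
  · intro v i h1 _ h3
    exact gens3 hWE hHV hm hI hβ' v i h1 h3

end Pool.Agent.Y994.FP
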